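import Pool.Agent.H91.GC.BFam

/-!
# Mixed families at a vertex
-/

set_option autoImplicit false

namespace Pool.Agent.H91.GC

open Pool.Agent.H53.GC Pool.Agent.H68.BP Pool.Agent.H58.SF

theorem pf_MXV (hV : T_VAL) (hC : T_CNS) (hE : Pool.Agent.H53.GC.T_EX) : T_MXV := by
  intro σ V X _ 𝔸 M c fr L Rt h hs hg ht k v
  have hlb : ∀ i j : Fin k, (if i = v then (1 : Fin 3) else 0) = 2 →
      (if j = v then (1 : Fin 3) else 0) = 2 → i = j := by
    intro i j hi _
    exfalso
    by_cases h1 : i = v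
    · rw [if_pos h1] at hi
      exact absurd hi (by decide)
    · rw [if_neg h1] at hi
      exact absurd hi (by decide)
  refine ⟨Bf c fr L Rt h (fun _ => 1) False 0, Hf c fr L Rt h (fun _ => 0),
    fun r => Bf c fr L Rt h (fun i => if i = v then 1 else 0) False r,
    fam_Bf hV hC hs hg ht _ _ _ (fun i j hi _ => absurd hi (by decide)),
    fam_Hf hV hC hs hg ht _ (fun i j hi _ => absurd hi (by decide)) (fun i => by decide),
    fun r => fam_Bf hV hC hs hg ht _ _ _ hlb, fun r w => ?_, fun r e he w => ?_⟩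
  · show famOf c fr L Rt h (strat False r fun i => if i = v then 1 else 0) (vsK v)
        (pat r (w 0) (w 1)) = famOf c fr L Rt h (strat False 0 fun _ => 1) (vsK v)
        (pat 0 (w 0) (w 1))
    have h1 := (hE σ V X 𝔸 M c fr L Rt h hg ht r (w 0) (w 1)).1
    unfold famOf strat vsK
    simpa using h1
  · have h1 : e.1.1 ≠ v := fun h1 => he (Or.inl h1)
    have h2 : e.1.2 ≠ v := fun h2 => he (Or.inr h2)
    exact Bf_eq_Hf _ _ r e (if_neg h1) (if_neg h2) rfl rfl w

end Pool.Agent.H91.GC
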