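import Pool.Agent.H53.GC.Targets

/-!
# Validity of the families given by shapes
-/

set_option autoImplicit false

namespace Pool.Agent.H91.GC

open Pool.Agent.H53.GC Pool.Agent.H68.BP Pool.Agent.H58.SF
open Classical

variable {V X : Type} [LinearOrder V]

/-! ### Realization of the blocks -/

/-- a coordinate for the element `x` of the blocks -/
private noncomputable def pk {J : Type} (κ : J → Fin 6 → Fin 6) (x : J ×ₗ Fin 6) : Fin 6 :=
  if hx : ∃ l, κ (ofLex x).1 l = (ofLex x).2 then hx.choose else 0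

private theorem pk_spec {J : Type} (κ : J → Fin 6 → Fin 6) (x : J ×ₗ Fin 6)
    (hx : ∃ l, κ (ofLex x).1 l = (ofLex x).2) : κ (ofLex x).1 (pk κ x) = (ofLex x).2 := by
  unfold pk
  rw [dif_pos hx]
  exact hx.choose_spec

/-- the type of the element `x` of the blocks -/
private noncomputable def Tx {J : Type} (c : V → V → X) (Y : Fin 6 → J → V)
    (κ : J → Fin 6 → Fin 6) (x : J ×ₗ Fin 6) : X :=
  c (Y (pk κ x) (ofLex x).1) (Y (pk κ x) (ofLex x).1)

/-- the colours of the pairs of elements of the blocks -/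
private noncomputable def dW {J : Type} (c : V → V → X) (fr : X → X → X) (Y : Fin 6 → J → V)
    (κ : J → Fin 6 → Fin 6) (x y : J ×ₗ Fin 6) : X :=
  if (ofLex x).1 = (ofLex y).1 then
    (if (ofLex x).2 = (ofLex y).2 then Tx c Y κ x else fr (Tx c Y κ x) (Tx c Y κ y))
  else if hm : ∃ l, κ (ofLex x).1 l = (ofLex x).2 ∧ κ (ofLex y).1 l = (ofLex y).2 then
    c (Y hm.choose (ofLex x).1) (Y hm.choose (ofLex y).1)
  else fr (Tx c Y κ x) (Tx c Y κ y)

private theorem real (hU : T_UNI) {c : V → V → X} {fr : X → X → X} {M : ℕ}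
    (huniv : Universal c fr M) {J : Type} [LinearOrder J] [Finite J] (Y : Fin 6 → J → V)
    (κ : J → Fin 6 → Fin 6)
    (one : ∀ q l l', κ q l = κ q l' → c (Y l q) (Y l q) = c (Y l' q) (Y l' q))
    (two : ∀ q q', q < q' → ∀ l l', κ q l = κ q l' → κ q' l = κ q' l' →
      c (Y l q) (Y l q') = c (Y l' q) (Y l' q'))
    (star : ∀ (m : ℕ) (q : Fin m → J) (s : Fin m → Fin 6), 2 ≤ m → StrictMono q →
      (∀ a b, a < b → ∃ l, κ (q a) l = s a ∧ κ (q b) l = s b) → ∃ l, ∀ a, κ (q a) l = s a) :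
    ∃ v : J → Fin 6 → V, (∀ q, Sh1 c fr (κ q) (fun l => c (Y l q) (Y l q)) (v q)) ∧
      ∀ q q', q < q' → (∀ l l', v q l < v q' l') ∧ ∀ l l',
        (∀ m, κ q m = κ q l → κ q' m = κ q' l' → c (v q l) (v q' l') = c (Y m q) (Y m q')) ∧
        ((∀ m, ¬ (κ q m = κ q l ∧ κ q' m = κ q' l')) →
          c (v q l) (v q' l') = fr (c (Y l q) (Y l q)) (c (Y l' q') (Y l' q'))) := by
  have hfin : Finite (J ×ₗ Fin 6) := inferInstanceAs (Finite (J × Fin 6))
  have hdd : ∀ x, dW c fr Y κ x x = Tx c Y κ x := by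
    intro x
    unfold dW
    rw [if_pos rfl, if_pos rfl]
  have hT : ∀ q l, Tx c Y κ (toLex (q, κ q l)) = c (Y l q) (Y l q) := by
    intro q l
    have h1 := pk_spec κ (toLex (q, κ q l)) ⟨l, rfl⟩
    exact one q _ _ h1
  obtain ⟨f, hf, hfc⟩ := hU V X c fr M huniv (J ×ₗ Fin 6) (dW c fr Y κ) (by
    intro m s hm hs hfree
    have hlt : ∀ i j, i < j → (ofLex (s i)).1 < (ofLex (s j)).1 ∧
        ∃ l, κ (ofLex (s i)).1 l = (ofLex (s i)).2 ∧ κ (ofLex (s j)).1 l = (ofLex (s j)).2 := by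
      intro i j hij
      have h1 := hfree i j hij
      rw [hdd, hdd] at h1
      have h2 := Prod.Lex.lt_iff.1 (hs hij)
      have h3 : (ofLex (s i)).1 < (ofLex (s j)).1 := by
        rcases h2 with h2 | ⟨h2, h3⟩
        · exact h2
        · exfalso
          apply h1
          unfold dW
          rw [if_pos h2, if_neg h3.ne]
      refine ⟨h3, ?_⟩
      by_contra h4
      apply h1
      unfold dW
      rw [if_neg h3.ne, dif_neg h4]
    rcases Nat.lt_or_ge m 2 with h2 | h2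
    · refine ⟨fun i => Y (pk κ (s i)) (ofLex (s i)).1, fun i j _ => ?_⟩
      have h3 : i = j := by
        apply Fin.ext
        have h4 := i.2
        have h5 := j.2
        omega
      subst h3
      rw [hdd]
      rfl
    · obtain ⟨l, hl⟩ := star m (fun i => (ofLex (s i)).1) (fun i => (ofLex (s i)).2) h2
        (fun i j hij => (hlt i j hij).1) (fun i j hij => (hlt i j hij).2)
      refine ⟨fun i => Y l (ofLex (s i)).1, fun i j hij => ?_⟩
      rcases hij.eq_or_lt with hij | hij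
      · subst hij
        rw [hdd]
        exact one _ _ _ ((hl i).trans (pk_spec κ (s i) ⟨l, hl i⟩).symm)
      · have h3 := (hlt i j hij).1
        have h4 := (hlt i j hij).2
        unfold dW
        rw [if_neg h3.ne, dif_pos h4]
        exact two _ _ h3 _ _ ((hl i).trans h4.choose_spec.1.symm)
          ((hl j).trans h4.choose_spec.2.symm))
  refine ⟨fun q l => f (toLex (q, κ q l)), fun q => ⟨fun l l' => ?_, fun l => ?_,
    fun l l' hl => ?_⟩, fun q q' hq => ⟨fun l l' => ?_, fun l l' => ⟨fun m h1 h2 => ?_,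
    fun h1 => ?_⟩⟩⟩
  · rw [hf.lt_iff_lt, Prod.Lex.toLex_lt_toLex]
    simp
  · show c (f _) (f _) = _
    rw [hfc _ _ le_rfl, hdd, hT]
  · show c (f _) (f _) = _
    rw [hfc (toLex (q, κ q l)) (toLex (q, κ q l'))
      (le_of_lt (Prod.Lex.toLex_lt_toLex.2 (Or.inr ⟨rfl, hl⟩)))]
    unfold dW
    rw [if_pos (show (ofLex (toLex (q, κ q l))).1 = (ofLex (toLex (q, κ q l'))).1 from rfl),
      if_neg (show ¬ (ofLex (toLex (q, κ q l))).2 = (ofLex (toLex (q, κ q l'))).2
      from hl.ne), hT, hT]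
  · show f _ < f _
    exact hf (Prod.Lex.toLex_lt_toLex.2 (Or.inl hq))
  · show c (f _) (f _) = _
    rw [hfc _ _ (le_of_lt (Prod.Lex.toLex_lt_toLex.2 (Or.inl hq)))]
    have h3 : ∃ a, κ (ofLex (toLex (q, κ q l))).1 a = (ofLex (toLex (q, κ q l))).2 ∧
        κ (ofLex (toLex (q', κ q' l'))).1 a = (ofLex (toLex (q', κ q' l'))).2 := ⟨m, h1, h2⟩
    unfold dW
    rw [if_neg (show ¬ (ofLex (toLex (q, κ q l))).1 = (ofLex (toLex (q', κ q' l'))).1
      from hq.ne), dif_pos h3]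
    exact two _ _ hq _ _ (h3.choose_spec.1.trans h1.symm) (h3.choose_spec.2.trans h2.symm)
  · show c (f _) (f _) = _
    rw [hfc _ _ (le_of_lt (Prod.Lex.toLex_lt_toLex.2 (Or.inl hq)))]
    unfold dW
    rw [if_neg (show ¬ (ofLex (toLex (q, κ q l))).1 = (ofLex (toLex (q', κ q' l'))).1
      from hq.ne), dif_neg (show ¬ ∃ a, κ (ofLex (toLex (q, κ q l))).1 a =
      (ofLex (toLex (q, κ q l))).2 ∧ κ (ofLex (toLex (q', κ q' l'))).1 a =
      (ofLex (toLex (q', κ q' l'))).2 from fun ⟨a, ha⟩ => h1 a ha), hT, hT]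

/-! ### The values on one and two blocks -/

private theorem sh1_lt {c : V → V → X} {fr : X → X → X} {κ : Fin 6 → Fin 6} {t : Fin 6 → X}
    {v u : Fin 6 → V} (hv : Sh1 c fr κ t v) (hu : Sh1 c fr κ t u) (l l' : Fin 6) :
    (v l < v l' ↔ u l < u l') ∧ (v l ≤ v l' → c (v l) (v l') = c (u l) (u l')) := by
  refine ⟨(hv.1 l l').trans (hu.1 l l').symm, fun hle => ?_⟩
  rcases hle.eq_or_lt with h1 | h1
  · have h2 : u l = u l' := by
      apply le_antisymm
      · rw [← not_lt, hu.1, ← hv.1, h1]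
        exact lt_irrefl _
      · rw [← not_lt, hu.1, ← hv.1, h1]
        exact lt_irrefl _
    rw [← h1, ← h2, hv.2.1, hu.2.1]
  · have h2 := (hv.1 l l').1 h1
    rw [hv.2.2 l l' h2, hu.2.2 l l' h2]

private theorem f1_eq {c : V → V → X} {fr : X → X → X} {h : (Fin 6 → V) → (Fin 6 → V) → X}
    (ht : TypeInv c h) {κ : Fin 6 → Fin 6} {t : Fin 6 → X} {v : Fin 6 → V}
    (hv : Sh1 c fr κ t v) : f1 c fr h κ t = h v v := by
  have h1 : ∃ v, Sh1 c fr κ t v := ⟨v, hv⟩
  unfold f1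
  rw [dif_pos h1]
  apply ht
  intro i j
  rcases i with i | i <;> rcases j with j | j <;> exact sh1_lt h1.choose_spec hv i j

private theorem f2_eq {c : V → V → X} {fr : X → X → X} {L Rt : X → X}
    {h : (Fin 6 → V) → (Fin 6 → V) → X}
    (ht : TypeInv c h) {κ κ' : Fin 6 → Fin 6} {w : Fin 6 → X} {v v' : Fin 6 → V}
    (hv : Sh2 c fr L Rt κ κ' w v v') : f2 c fr L Rt h κ κ' w = h v v' := by
  have h1 : ∃ z : (Fin 6 → V) × (Fin 6 → V), Sh2 c fr L Rt κ κ' w z.1 z.2 := ⟨(v, v'), hv⟩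
  unfold f2
  rw [dif_pos h1]
  apply ht
  obtain ⟨a1, a2, a3, a4⟩ := h1.choose_spec
  obtain ⟨b1, b2, b3, b4⟩ := hv
  intro i j
  rcases i with i | i <;> rcases j with j | j
  · exact sh1_lt a1 b1 i j
  · refine ⟨⟨fun _ => b3 i j, fun _ => a3 i j⟩, fun _ => ?_⟩
    show c (h1.choose.1 i) (h1.choose.2 j) = c (v i) (v' j)
    by_cases h2 : ∃ m, κ m = κ i ∧ κ' m = κ' j
    · obtain ⟨m, hm1, hm2⟩ := h2
      rw [(a4 i j).1 m hm1 hm2, (b4 i j).1 m hm1 hm2]
    · have h3 : ∀ m, ¬ (κ m = κ i ∧ κ' m = κ' j) := fun m hm => h2 ⟨m, hm⟩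
      rw [(a4 i j).2 h3, (b4 i j).2 h3]
  · refine ⟨⟨fun h2 => ?_, fun h2 => ?_⟩, fun h2 => ?_⟩
    · exact absurd (lt_trans (a3 j i) h2) (lt_irrefl _)
    · exact absurd (lt_trans (b3 j i) h2) (lt_irrefl _)
    · exact absurd (lt_of_lt_of_le (a3 j i) h2) (lt_irrefl _)
  · exact sh1_lt a2 b2 i j

/-! ### Validity -/

theorem pf_VAL (hU : T_UNI) : T_VAL := by
  intro σ V X _ 𝔸 M c fr L Rt h hs hg ht k Λ ⟨s, τ⟩ p hp hc
  choose y hy1 hy2 hy3 using hp
  -- the elements of the blocks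
  let J := {q : Fin k // ∃ a, τ a = q}
  let Y : Fin 6 → J → V := fun l q => y l q.2.choose
  have hYa : ∀ l a, Y l ⟨τ a, a, rfl⟩ = y l a := by
    intro l a
    have h1 : ∃ b, τ b = τ a := ⟨a, rfl⟩
    exact hy2 l _ _ h1.choose_spec
  have hY : ∀ l (q q' : J) (hq : q.1 ≤ q'.1), c (Y l q) (Y l q') = p l ⟨(q.1, q'.1), hq⟩ := by
    rintro l ⟨_, a, rfl⟩ ⟨_, b, rfl⟩ hq
    rw [hYa, hYa]
    exact hy3 l a b hq
  obtain ⟨v, hv1, hv2⟩ := real hU hs.univ Y (fun q => Λ q.1 (fun a => p a (vsK q.1)))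
    (fun q l l' hl => by
      rw [hY l q q le_rfl, hY l' q q le_rfl]
      exact hc.one q.1 q.2 l l' hl)
    (fun q q' hq l l' hl hl' => by
      rw [hY l q q' (le_of_lt hq), hY l' q q' (le_of_lt hq)]
      exact hc.two q.1 q'.1 q.2 q'.2 hq l l' hl hl')
    (fun m q s h2 hq hqs => hc.star m (fun a => (q a).1) s h2 (fun a b hab => hq hab)
      (fun a => (q a).2) hqs)
  have e0 : ∀ q : J, (fun i => p i (vsK q.1)) = fun i => c (Y i q) (Y i q) :=
    fun q => funext fun i => (hY i q q le_rfl).symm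
  simp only [e0] at hv1 hv2
  -- two blocks
  have hsh2 : ∀ q q' : J, q < q' → Sh2 c fr L Rt (Λ q.1 fun i => c (Y i q) (Y i q))
      (Λ q'.1 fun i => c (Y i q') (Y i q')) (fun i => c (Y i q) (Y i q')) (v q) (v q') := by
    intro q q' hq
    have h1 : (fun l => L (c (Y l q) (Y l q'))) = fun l => c (Y l q) (Y l q) :=
      funext fun l => (hs.typed.left _ _).symm
    have h2 : (fun l => Rt (c (Y l q) (Y l q'))) = fun l => c (Y l q') (Y l q') :=
      funext fun l => (hs.typed.right _ _).symm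
    refine ⟨?_, ?_, (hv2 q q' hq).1, fun l l' => ⟨((hv2 q q' hq).2 l l').1, fun h3 => ?_⟩⟩
    · show Sh1 c fr _ (fun l => L (c (Y l q) (Y l q'))) (v q)
      rw [h1]
      exact hv1 q
    · show Sh1 c fr _ (fun l => Rt (c (Y l q) (Y l q'))) (v q')
      rw [h2]
      exact hv1 q'
    · show _ = fr (L (c (Y l q) (Y l q'))) (Rt (c (Y l' q) (Y l' q')))
      rw [← hs.typed.left, ← hs.typed.right]
      exact ((hv2 q q' hq).2 l l').2 h3
  -- the block of an entry
  let q : Fin (arP σ M s) → J := fun a => ⟨τ a, a, rfl⟩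
  have hlt : ∀ a b l, v (q a) l ≤ v (q b) l → τ a ≤ τ b := by
    intro a b l hle
    by_contra h1
    have h2 : q b < q a := not_le.1 h1
    exact absurd (lt_of_lt_of_le ((hv2 _ _ h2).1 l l) hle) (lt_irrefl _)
  have hqe : ∀ a b, τ a = τ b → q a = q b := fun a b hab => Subtype.ext hab
  have hcol : ∀ a b l, τ a ≤ τ b → c (v (q a) l) (v (q b) l) = c (y l a) (y l b) := by
    intro a b l hab
    rw [← hYa l a, ← hYa l b]
    show c (v (q a) l) (v (q b) l) = c (Y l (q a)) (Y l (q b))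
    rcases hab.eq_or_lt with h1 | h1
    · rw [hqe a b h1]
      exact (hv1 (q b)).2.1 l
    · exact ((hv2 (q a) (q b) h1).2 l l).1 l rfl rfl
  have hrel : ∀ l, relP 𝔸 M s (fun a => v (q a) l) := by
    intro l
    have h1 := hy1 l
    rcases s with _ | l0
    · trivial
    · refine hs.split l0 (y l) (fun a => v (q a) l) h1 (fun a b hab => ?_) fun a b hab => ?_
      · exact hcol a b l (hlt a b l hab)
      · exact hy2 l a b (le_antisymm (hlt a b l hab.le) (hlt b a l hab.ge))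
  obtain ⟨x, hx1, hx2, hx3⟩ := hg.rel s k τ (fun a => v (q a)) hrel
    (fun a b hab => by rw [hqe a b hab])
  refine ⟨x, hx1, hx2, fun a b hab => ?_⟩
  rw [hx3 a b]
  have e3 : (fun i => p i ⟨(τ a, τ b), hab⟩) = fun i => c (Y i (q a)) (Y i (q b)) :=
    funext fun i => (hY i (q a) (q b) hab).symm
  show h (v (q a)) (v (q b)) = famOf c fr L Rt h Λ ⟨(τ a, τ b), hab⟩
    (fun i => p i ⟨(τ a, τ b), hab⟩)
  rw [e3]
  unfold famOf
  by_cases h1 : τ a = τ b
  · rw [if_pos h1, ← hqe a b h1]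
    exact (f1_eq ht (hv1 (q a))).symm
  · rw [if_neg h1]
    have h2 : q a < q b := show τ a < τ b from lt_of_le_of_ne hab h1
    have h3 : (fun l => L (c (Y l (q a)) (Y l (q b)))) = fun l => c (Y l (q a)) (Y l (q a)) :=
      funext fun l => (hs.typed.left _ _).symm
    have h4 : (fun l => Rt (c (Y l (q a)) (Y l (q b)))) = fun l => c (Y l (q b)) (Y l (q b)) :=
      funext fun l => (hs.typed.right _ _).symm
    rw [h3, h4]
    exact (f2_eq ht (hsh2 (q a) (q b) h2)).symm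

end Pool.Agent.H91.GC
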