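import Pool.Agent.H53.GC.Targets

/-!
# The binary families and the families with six arguments preserve the patterns
-/

set_option autoImplicit false

namespace Pool.Agent.H91.GC

open Pool.Agent.H53.GC Pool.Agent.H68.BP Pool.Agent.H58.SF

variable {σ : Sig} {V X : Type} [LinearOrder V] {𝔸 : Str σ V} {M : ℕ} {c : V → V → X}
  {fr : X → X → X} {L Rt : X → X} {h : (Fin 6 → V) → (Fin 6 → V) → X}

/-- The binary families preserve the patterns. -/
theorem fam_Bf (hV : T_VAL) (hC : T_CNS) (hs : Setup 𝔸 M c fr L Rt) (hg : GoodMap 𝔸 M c h)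
    (ht : TypeInv c h) {k : ℕ} (lb : Fin k → Fin 3) (fb : Prop) (r : Fin 3)
    (hlb : ∀ i j, lb i = 2 → lb j = 2 → i = j) :
    Fam (Rk 𝔸 M c k) (Fin 2) (Bf c fr L Rt h lb fb r) := by
  intro l p hp
  have h0 : ∀ i, Rk 𝔸 M c k l (pat r (p 0) (p 1) i) := by
    intro i
    fin_cases r <;> fin_cases i <;> first | exact hp 0 | exact hp 1
  have h1 := hV σ V X 𝔸 M c fr L Rt h hs hg ht k (strat fb r lb) l (pat r (p 0) (p 1)) h0
    (hC X k _ lb fb r _ hlb (Or.inl ⟨p 0, p 1, fun l => rfl⟩))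
  have h2 : (fun e => Bf c fr L Rt h lb fb r e (fun i => p i e)) =
      fun e => famOf c fr L Rt h (strat fb r lb) e (fun i => pat r (p 0) (p 1) i e) := by
    funext e
    show famOf c fr L Rt h (strat fb r lb) e (pat r (p 0 e) (p 1 e)) = _
    congr 1
    funext i
    exact (pat_map (fun q : Prs k → X => q e) r (p 0) (p 1) i).symm
  rw [h2]
  exact h1

/-- The families with six arguments preserve the patterns. -/
theorem fam_Hf (hV : T_VAL) (hC : T_CNS) (hs : Setup 𝔸 M c fr L Rt) (hg : GoodMap 𝔸 M c h)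
    (ht : TypeInv c h) {k : ℕ} (lb : Fin k → Fin 3) (hlb : ∀ i j, lb i = 2 → lb j = 2 → i = j)
    (hlb1 : ∀ i, lb i ≠ 1) :
    Fam (Rk 𝔸 M c k) (Fin 6) (Hf c fr L Rt h lb) := by
  intro l p hp
  exact hV σ V X 𝔸 M c fr L Rt h hs hg ht k (strat False 0 lb) l p hp
    (hC X k _ lb False 0 _ hlb (Or.inr ⟨hlb1, not_false⟩))

/-- Away from the special vertices the binary families are given by the family with six
arguments. -/
theorem Bf_eq_Hf {k : ℕ} (lb lb' : Fin k → Fin 3) (r : Fin 3) (e : Prs k)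
    (h1 : lb e.1.1 = 0) (h2 : lb e.1.2 = 0) (h3 : lb' e.1.1 = 0) (h4 : lb' e.1.2 = 0)
    (w : Fin 2 → X) :
    Bf c fr L Rt h lb False r e w = Hf c fr L Rt h lb' e (pat r (w 0) (w 1)) := by
  show famOf c fr L Rt h (strat False r lb) e (pat r (w 0) (w 1)) =
    famOf c fr L Rt h (strat False 0 lb') e (pat r (w 0) (w 1))
  unfold famOf strat
  simp only [h1, h2, h3, h4, if_true]

end Pool.Agent.H91.GC
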